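import Pool.Agent.W2helper37.SG.Stm

/-!
# Project SG, piece TRA: the partial traces
-/

set_option autoImplicit false
set_option linter.unusedSectionVars false
set_option linter.unusedSimpArgs false
set_option backward.isDefEq.respectTransparency false
set_option backward.defeqAttrib.useBackward true

open CategoryTheory Limits MonoidalCategory
open Pool.Agent.Y112.SR Pool.Agent.Y112.KD Pool.Agent.Y112.SC
open Pool.Agent.W2helper37.SG

namespace Pool.Agent.W2helper82.SG

universe v u w

section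

variable {C : Type u} [Category.{v} C] [Preadditive C] [Linear ℚ C]
  [MonoidalCategory C] [MonoidalPreadditive C] [MonoidalLinear ℚ C] [SymmetricCategory C]
  [RightRigidCategory C] {K : Type w} [Field K] (R : SuperRealisation C K)

lemma PT_sum {Q X : C} {ι : Type*} (s : Finset ι)
    (x : ι → (R.H.obj (Q ⊗ X) ⟶ R.H.obj (Q ⊗ X))) :
    PT R (∑ i ∈ s, x i) = ∑ i ∈ s, PT R (x i) := by
  classical
  induction s using Finset.induction_on with
  | empty =>
    rw [Finset.sum_empty, Finset.sum_empty]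
    have := PT_smul R (0 : K) (0 : R.H.obj (Q ⊗ X) ⟶ R.H.obj (Q ⊗ X))
    simpa using this
  | insert i s hi ih => rw [Finset.sum_insert hi, Finset.sum_insert hi, PT_add, ih]

lemma bx_sum_right {Q X : C} {ι : Type*} (s : Finset ι) (a : R.H.obj Q ⟶ R.H.obj Q)
    (b : ι → (R.H.obj X ⟶ R.H.obj X)) : ∑ i ∈ s, bx R a (b i) = bx R a (∑ i ∈ s, b i) := by
  classical
  induction s using Finset.induction_on with
  | empty => rw [Finset.sum_empty, Finset.sum_empty, bx_zero_right]
  | insert i s hi ih => rw [Finset.sum_insert hi, Finset.sum_insert hi, bx_add_right, ih]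

lemma exists_pow {X : C} (z : X ⟶ X) (n : ℕ) :
    ∃ w : X ⟶ X, (R.H.map w).hom = ((R.H.map z).hom : Module.End K (R.H.obj X)) ^ n := by
  induction n with
  | zero => exact ⟨𝟙 X, by rw [CategoryTheory.Functor.map_id, pow_zero]; rfl⟩
  | succ n ih =>
    obtain ⟨w, hw⟩ := ih
    refine ⟨w ≫ z, ?_⟩
    rw [Functor.map_comp, ModuleCat.hom_comp, hw, pow_succ']
    rfl

lemma map_whiskerLeft_eq {Q X : C} (f : X ⟶ X) : R.H.map (Q ◁ f) = bx R (𝟙 _) (R.H.map f) := by
  rw [← CategoryTheory.Functor.map_id, bx_map, id_tensorHom]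

variable {ι : Type} [Fintype ι] [DecidableEq ι]

lemma comp_key {M X : C} {o : ι → Bool} {e : ι → ι → (R.H.obj M ⟶ R.H.obj M)}
    (U : Units R M o e) (F G : ι → ι → (R.H.obj X ⟶ R.H.obj X)) :
    (∑ i, ∑ k, bx R (e i k) (F k i)) ≫ (∑ j, ∑ l, bx R (e j l) (G l j)) =
      ∑ i, ∑ l, bx R (e i l) (∑ k, F k i ≫ G l k) := by
  rw [Preadditive.sum_comp]
  refine Finset.sum_congr rfl fun i _ => ?_
  rw [Preadditive.sum_comp]
  have h1 : ∀ k, bx R (e i k) (F k i) ≫ (∑ j, ∑ l, bx R (e j l) (G l j)) =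
      ∑ l, bx R (e i l) (F k i ≫ G l k) := by
    intro k
    rw [Preadditive.comp_sum, Finset.sum_eq_single k]
    · rw [Preadditive.comp_sum]
      refine Finset.sum_congr rfl fun l _ => ?_
      rw [bx_comp, U.mul, if_pos rfl]
    · intro j _ hj
      rw [Preadditive.comp_sum]
      refine Finset.sum_eq_zero fun l _ => ?_
      rw [bx_comp, U.mul, if_neg (Ne.symm hj), bx_zero_left]
    · intro h
      exact absurd (Finset.mem_univ k) h
  rw [Finset.sum_congr rfl fun k _ => h1 k, Finset.sum_comm]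
  refine Finset.sum_congr rfl fun l _ => ?_
  rw [bx_sum_right]

lemma comp_right {M X : C} {e : ι → ι → (R.H.obj M ⟶ R.H.obj M)}
    (F : ι → ι → (R.H.obj X ⟶ R.H.obj X)) (c : R.H.obj X ⟶ R.H.obj X) :
    (∑ i, ∑ k, bx R (e i k) (F k i)) ≫ bx R (𝟙 _) c =
      ∑ i, ∑ k, bx R (e i k) (F k i ≫ c) := by
  rw [Preadditive.sum_comp]
  refine Finset.sum_congr rfl fun i _ => ?_
  rw [Preadditive.sum_comp]
  refine Finset.sum_congr rfl fun k _ => ?_
  rw [bx_comp, Category.comp_id]

lemma PT_key {M X : C} {e : ι → ι → (R.H.obj M ⟶ R.H.obj M)}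
    (G : ι → ι → (R.H.obj X ⟶ R.H.obj X)) :
    PT R (∑ i, ∑ l, bx R (e i l) (G l i)) =
      ∑ i, ∑ l, (LinearMap.trace K (R.H.obj X) (G l i ≫ R.par X).hom) • e i l := by
  have hK := R_charZero R
  rw [PT_sum]
  refine Finset.sum_congr rfl fun i _ => ?_
  rw [PT_sum]
  refine Finset.sum_congr rfl fun l _ => ?_
  rw [PT_bx R two_ne_zero]

lemma diag_sum {M : C} {e : ι → ι → (R.H.obj M ⟶ R.H.obj M)} (c : ι → ι → K) (d : ι → K)
    (h : ∀ l i, c l i = if l = i then d l else 0) :
    ∑ i, ∑ l, c l i • e i l = ∑ k, d k • e k k := by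
  refine Finset.sum_congr rfl fun i _ => ?_
  rw [Finset.sum_eq_single i]
  · rw [h, if_pos rfl]
  · intro l _ hl
    rw [h, if_neg hl, zero_smul]
  · intro h'
    exact absurd (Finset.mem_univ i) h'

end

theorem p_tra : P_TRA.{u, v, w} := by
  intro hSC C _ _ _ _ _ _ _ _ K _ R M X ι _ _ o e U a A hA g hg ν z hν hz n
  have hK := R_charZero R
  have hfin := R.finite X
  obtain ⟨hSC1, hSC2⟩ := hSC K ι o (R.H.obj X) A hA.rel
  obtain ⟨w, hw⟩ := exists_pow R z n
  rw [hz] at hw
  have hy : ∀ c c', o c = o c' → Commute (ZZ o A ^ n) (A c c') :=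
    fun c c' hc => (hSC1 c c' hc).pow_left n
  have hSC3 := hSC2 (ZZ o A ^ n) hy
  set Ao : ι → ι → Module.End K (R.H.obj X) := fun k i => if o k ≠ o i then A k i else 0 with hAo
  have hν' : R.H.map ν = ∑ i, ∑ k, bx R (e i k) (ModuleCat.ofHom (Ao k i)) := hν
  -- the coefficients
  have hc1 : ∀ l i, ∑ k, LinearMap.trace K (R.H.obj X) (ZZ o A ^ n * (Ao l k * Ao k i)) =
      if l = i then LinearMap.trace K _ (ZZ o A ^ n * XX o A (o l)) / num o (o l) else 0 := by
    intro l i
    by_cases hli : o l = o i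
    · rw [← (hSC3 l i hli).1, Finset.sum_filter]
      refine Finset.sum_congr rfl fun k _ => ?_
      by_cases hk : o k ≠ o l
      · have h1 : Ao l k = A l k := if_pos (Ne.symm hk)
        have h2 : Ao k i = A k i := if_pos (by rw [← hli]; exact hk)
        rw [if_pos hk, h1, h2]
      · have h1 : Ao l k = 0 := if_neg (by rw [not_not] at hk ⊢; exact hk.symm)
        rw [if_neg hk, h1, zero_mul, mul_zero, map_zero]
    · rw [if_neg (fun h => hli (by rw [h]))]
      refine Finset.sum_eq_zero fun k _ => ?_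
      by_cases hk : o l ≠ o k
      · have h2 : Ao k i = 0 := by
          refine if_neg (fun h => ?_)
          revert hli hk h
          cases o l <;> cases o k <;> cases o i <;> simp
        rw [h2, mul_zero, mul_zero, map_zero]
      · have h1 : Ao l k = 0 := if_neg hk
        rw [h1, zero_mul, mul_zero, map_zero]
  have hc2 : ∀ l i, ∑ k, LinearMap.trace K (R.H.obj X) (Ao l k * ZZ o A ^ n * Ao k i) =
      if l = i then LinearMap.trace K _ (ZZ o A ^ n * XX o A (!(o l))) / num o (o l) else 0 := by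
    intro l i
    by_cases hli : o l = o i
    · rw [← (hSC3 l i hli).2, Finset.sum_filter]
      refine Finset.sum_congr rfl fun k _ => ?_
      by_cases hk : o k ≠ o l
      · have h1 : Ao l k = A l k := if_pos (Ne.symm hk)
        have h2 : Ao k i = A k i := if_pos (by rw [← hli]; exact hk)
        rw [if_pos hk, h1, h2]
      · have h1 : Ao l k = 0 := if_neg (by rw [not_not] at hk ⊢; exact hk.symm)
        rw [if_neg hk, h1, zero_mul, zero_mul, map_zero]
    · rw [if_neg (fun h => hli (by rw [h]))]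
      refine Finset.sum_eq_zero fun k _ => ?_
      by_cases hk : o l ≠ o k
      · have h2 : Ao k i = 0 := by
          refine if_neg (fun h => ?_)
          revert hli hk h
          cases o l <;> cases o k <;> cases o i <;> simp
        rw [h2, mul_zero, map_zero]
      · have h1 : Ao l k = 0 := if_neg hk
        rw [h1, zero_mul, zero_mul, map_zero]
  have hpp : (R.par X).hom * (R.par X).hom = (1 : Module.End K (R.H.obj X)) := by
    have h1 := congrArg ModuleCat.Hom.hom (R.par_sq X)
    rw [ModuleCat.hom_comp] at h1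
    exact h1
  refine ⟨ptr (ν ≫ ν ≫ M ◁ (w ≫ g)), -ptr (ν ≫ M ◁ (w ≫ g) ≫ ν), ?_, ?_⟩
  · rw [← PT_map, Functor.map_comp, Functor.map_comp, map_whiskerLeft_eq, ← Category.assoc, hν',
      comp_key R U, comp_right, PT_key]
    refine diag_sum R _ _ fun l i => ?_
    rw [← hc1 l i, ← map_sum]
    congr 1
    rw [Functor.map_comp, hg, ModuleCat.hom_comp, ModuleCat.hom_comp, ModuleCat.hom_comp, hw,
      ModuleCat.hom_sum]
    have h1 : ∀ k, (ModuleCat.ofHom (Ao k i) ≫ ModuleCat.ofHom (Ao l k)).hom = Ao l k * Ao k i :=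
      fun k => rfl
    rw [Finset.sum_congr rfl fun k _ => h1 k]
    change (R.par X).hom * (((R.par X).hom * (ZZ o A ^ n)) * (∑ k, Ao l k * Ao k i)) = _
    rw [← mul_assoc, ← mul_assoc, hpp, one_mul, Finset.mul_sum]
  · have e1 : R.H.map (-ptr (ν ≫ M ◁ (w ≫ g) ≫ ν)) = -PT R (R.H.map (ν ≫ M ◁ (w ≫ g) ≫ ν)) := by
      rw [PT_map, Functor.map_neg]
    rw [e1, Functor.map_comp, Functor.map_comp, map_whiskerLeft_eq, ← Category.assoc, hν',
      comp_right, comp_key R U, PT_key, ← Finset.sum_neg_distrib]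
    simp only [← Finset.sum_neg_distrib, ← neg_smul]
    refine diag_sum R _ _ fun l i => ?_
    rw [← hc2 l i, ← map_sum, ← map_neg]
    congr 1
    rw [Functor.map_comp, hg, ModuleCat.hom_comp, ModuleCat.hom_sum]
    have h1 : ∀ k, ((ModuleCat.ofHom (Ao k i) ≫ R.H.map w ≫ R.par X) ≫
        ModuleCat.ofHom (Ao l k)).hom = Ao l k * ((R.par X).hom * ((R.H.map w).hom * Ao k i)) :=
      fun k => rfl
    rw [Finset.sum_congr rfl fun k _ => h1 k, hw]
    change -((R.par X).hom * (∑ k, Ao l k * ((R.par X).hom * ((ZZ o A ^ n) * Ao k i)))) = _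
    rw [Finset.mul_sum, ← Finset.sum_neg_distrib]
    refine Finset.sum_congr rfl fun k _ => ?_
    have h2 : (R.par X).hom * Ao l k = -(Ao l k * (R.par X).hom) := by
      by_cases hk : o l ≠ o k
      · have h3 : Ao l k = A l k := if_pos hk
        rw [h3, hA.par l k]
        have h4 : sg K (o l) * sg K (o k) = -1 := by
          revert hk
          cases o l <;> cases o k <;> simp [sg]
        rw [h4, neg_one_smul]
      · have h3 : Ao l k = 0 := if_neg hk
        rw [h3, mul_zero, zero_mul, neg_zero]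
    rw [← mul_assoc, h2, neg_mul, neg_neg, mul_assoc, ← mul_assoc (R.par X).hom, hpp, one_mul,
      ← mul_assoc]

end Pool.Agent.W2helper82.SG
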