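import Pool.Agent.W2helper37.SG.Stm4
import Pool.Agent.W4helper65.SG.Bra
import Pool.Agent.W2helper53.SG.Bsw
import Pool.Agent.W2helper59.SG.Sel
import Pool.Agent.W2helper59.SG.Ten
import Pool.Agent.W2helper71.SG.Brx
import Pool.Agent.W2helper85.SG.Eqv

/-!
# Project SG, part 2, piece BRO: the Brauer algebra commutes with the action of `osp(M)`
-/

set_option autoImplicit false
set_option linter.unusedSectionVars false
set_option linter.unusedSimpArgs false
set_option backward.isDefEq.respectTransparency false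
set_option backward.defeqAttrib.useBackward true

open CategoryTheory Limits MonoidalCategory
open Functor.LaxMonoidal Functor.OplaxMonoidal
open Pool.Agent.Y112.SR Pool.Agent.Y112.KD Pool.Agent.Y112.SC
open Pool.Agent.W2helper37.SG Pool.Agent.W4helper65.SG

namespace Pool.Agent.W2helper82.SG

universe v u w

section

variable {C : Type u} [Category.{v} C] [Preadditive C] [Linear ℚ C] [MonoidalCategory C]
  [MonoidalPreadditive C] [MonoidalLinear ℚ C] [SymmetricCategory C] [RightRigidCategory C]
  {K : Type w} [Field K] (R : SuperRealisation C K)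

/-- the matrices of the actions on `pw` -/
noncomputable def AO {ι : Type} (o : ι → Bool) {M : C} (N : C)
    (AM : ι → ι → Module.End K (R.H.obj M)) :
    ∀ n : ℕ, ι → ι → Module.End K (R.H.obj (pw M N n))
  | 0 => fun _ _ => 0
  | n + 1 => tenA R o AM (AO o N AM n)

end

lemma parRel_sub {K : Type w} [Field K] {ι : Type} (o : ι → Bool) (σ : ι → ι) (γ : ι → K)
    (hσ : ∀ i, o (σ i) = o i) {Q : Type w} [AddCommGroup Q] [Module K Q] (P : Module.End K Q)
    (A : ι → ι → Module.End K Q) (h0 : ParRel o P A) :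
    ParRel o P (fun k i => A k i - tauA o σ γ A k i) := by
  intro k i
  have h1 := h0 k i
  have h2 := h0 (σ i) (σ k)
  simp only [tauA]
  rw [mul_sub, mul_smul_comm, h1, h2, hσ, hσ, sub_mul, smul_sub, smul_mul_assoc,
    smul_comm (cc K (o i) (o k) * γ i * (γ (σ k))⁻¹), mul_comm (sg K (o i))]

/-- BRO with the auxiliary pieces as hypotheses -/
theorem bro_of (hEQV : P_EQV.{v, u, w}) (hBSW : P_BSW.{v, u, w}) (hTEN : P_TEN.{v, u, w})
    (hSEL : P_SEL.{v, u, w}) (hBRX : P_BRX.{v, u, w}) : P_BRO.{v, u, w} := by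
  intro hBKA C _ _ _ _ _ _ _ _ K _ R M N ι _ _ o σ γ N' e hF hU κ hκ n f hf
  obtain ⟨hM, -⟩ := hSEL C K R M ι o e hU
  set A : ι → ι → Module.End K (R.H.obj M) := fun k i => cc K (o i) (o k) • (e k i).hom with hAd
  set A' : ι → ι → Module.End K (R.H.obj M) := fun k i =>
    cc K (o i) (o k) • (e k i).hom - (γ i * (γ (σ k))⁻¹) • (e (σ i) (σ k)).hom with hAd'
  have hpar : ParRel o (R.par M).hom A' := by
    have h0 : ParRel o (R.par M).hom A := hM.par
    have hT : ∀ k i, tauA o σ γ A k i = (γ i * (γ (σ k))⁻¹) • (e (σ i) (σ k)).hom := by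
      intro k i
      simp only [tauA, hAd]
      rw [hF.par, hF.par, smul_smul]
      congr 1
      have h5 : cc K (o i) (o k) * cc K (o k) (o i) = 1 := by
        cases o i <;> cases o k <;> simp [Pool.Agent.W2helper37.SG.cc]
      linear_combination (γ i * (γ (σ k))⁻¹) * h5
    have e1 : A' = fun k i => A k i - tauA o σ γ A k i := by
      funext k i
      rw [hT]
    rw [e1]
    exact parRel_sub o σ γ hF.par _ A h0
  have hRe1 : Re R e ((β_ M M).hom - κ) A' := by
    have h1 : R.H.map ((β_ M M).hom - κ) = R.H.map (β_ M M).hom - R.H.map κ := by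
      rw [Functor.map_sub]
    have h2 : R.H.map (β_ M M).hom = ∑ i, ∑ k, bx R (e i k) (ModuleCat.ofHom (A k i)) := hM.re
    have h3 : R.H.map κ = ∑ i, ∑ k, bx R (e i k)
      (ModuleCat.ofHom ((γ i * (γ (σ k))⁻¹) • (e (σ i) (σ k)).hom)) := hκ
    unfold Re
    rw [h1, h2, h3, ← Finset.sum_sub_distrib]
    refine Finset.sum_congr rfl fun i _ => ?_
    rw [← Finset.sum_sub_distrib]
    refine Finset.sum_congr rfl fun k _ => ?_
    have h6 : (ModuleCat.ofHom (A' k i) : R.H.obj M ⟶ R.H.obj M) = ModuleCat.ofHom (A k i) +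
        -(ModuleCat.ofHom ((γ i * (γ (σ k))⁻¹) • (e (σ i) (σ k)).hom)) := by
      rw [hAd', ← sub_eq_add_neg]
      rfl
    have h7 : bx R (e i k) (-(ModuleCat.ofHom ((γ i * (γ (σ k))⁻¹) • (e (σ i) (σ k)).hom) :
        R.H.obj M ⟶ R.H.obj M)) = -bx R (e i k)
          (ModuleCat.ofHom ((γ i * (γ (σ k))⁻¹) • (e (σ i) (σ k)).hom)) := by
      rw [eq_neg_iff_add_eq_zero, ← bx_add_right, neg_add_cancel, bx_zero_right]
    rw [h6, bx_add_right, h7, sub_eq_add_neg]
  have hRe : ∀ n, Re R e (omO M N κ n) (AO R o N A' n) := by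
    intro n
    induction n with
    | zero =>
      unfold Re
      rw [omO, Functor.map_zero]
      symm
      apply Finset.sum_eq_zero
      intro i _
      apply Finset.sum_eq_zero
      intro k _
      exact bx_zero_right R _
    | succ n ih => exact hTEN hBRX C K R M M (pw M N n) ι o e hU _ _ _ _ hRe1 ih
  have key : ∀ k i, (R.H.map f).hom ∘ₗ AO R o N A' n k i =
      AO R o N A' n k i ∘ₗ (R.H.map f).hom := by
    induction hf with
    | one n =>
      intro k i
      rw [CategoryTheory.Functor.map_id]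
      rfl
    | comp _ _ ihf ihg =>
      intro k i
      rw [Functor.map_comp, ModuleCat.hom_comp, LinearMap.comp_assoc, ihf k i,
        ← LinearMap.comp_assoc, ihg k i, LinearMap.comp_assoc]
    | add _ _ ihf ihg =>
      intro k i
      rw [Functor.map_add, ModuleCat.hom_add, LinearMap.add_comp, LinearMap.comp_add, ihf k i,
        ihg k i]
    | @smul n t f _ ih =>
      have h1 := (hEQV C K R M _ _ ι o e hU _ _ _ _ (hRe n) (hRe n) f).2 ih
      refine (hEQV C K R M _ _ ι o e hU _ _ _ _ (hRe n) (hRe n) (t • f)).1 ?_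
      rw [MonoidalLinear.whiskerLeft_smul, Linear.smul_comp, Linear.comp_smul]
      exact map_smul_eq R h1 t
    | whisker _ ih =>
      intro k i
      exact tenA_wl R o _ A' _ _ k i (ih k i)
    | swap n =>
      intro k i
      exact hBSW C K R M M (pw M N n) ι o A' A' _ hpar hpar k i
    | kap n =>
      intro k i
      exact hBKA C K R M (pw M N n) ι o σ γ N' e hF hU κ hκ A' (fun _ _ => rfl) _ k i
  exact (hEQV C K R M _ _ ι o e hU _ _ _ _ (hRe n) (hRe n) f).2 key

theorem p_bro : P_BRO.{v, u, w} :=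
  bro_of Pool.Agent.W2helper85.SG.p_eqv Pool.Agent.W2helper53.SG.p_bsw
    (Pool.Agent.W2helper59.SG.p_ten Pool.Agent.W2helper71.SG.p_brx)
    Pool.Agent.W2helper59.SG.p_sel Pool.Agent.W2helper71.SG.p_brx

end Pool.Agent.W2helper82.SG
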